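import Pool.Agent.P.MP_22cf7a_nt.Two
import Pool.Agent.P.MP_7cb106_nt.As.Defs2

set_option autoImplicit false

namespace Pool.Agent.P.MP_22cf7a_nt.BoundedRemainderKept

open Pool.Agent.P.MP_7cb106_nt Pool.Agent.P.MP_7cb106_nt.As Pool.Agent.P.MP_22cf7a_nt Module
  IsLocalRing
open scoped TensorProduct

theorem result (p : ℕ) [Fact p.Prime] (A O F J W : Type)
    [CommRing A] [IsDomain A] [IsDiscreteValuationRing A] [IsAdicComplete (maximalIdeal A) A]
    [Finite (ResidueField A)] [CharP (ResidueField A) p]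
    [CommRing O] [Algebra O ℂ] (hO : Function.Injective (algebraMap O ℂ))
    [Field F] [Finite F] [CharP F p] [Algebra O F] [Fintype J] [Nonempty J] (φ : J → A →+* O)
    [AddCommGroup W] [Module F W] (a : Representation F (GL (Fin 2) A) W) (M : ℕ)
    (hM : RegMult a M) :
    ∃ C : ℝ, ∀ (U V : Type) [AddCommGroup U] [Module O U] [Module.Free O U] [Module.Finite O U]
      [AddCommGroup V] [Module O V] [Module.Free O V] [Module.Finite O V]
      (σ : Representation O (GL (Fin 2) A) U) (L : Representation O (GL (Fin 2) A) V) (m D : ℕ),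
      SmoothIrr σ → Algebraic F φ L → D = finrank O U * finrank O V →
      Central (extend F (σ.tprod L)) a → HasMult (extend F (σ.tprod L)) a m →
      |(m : ℝ) - D * M * dens A 2| ≤ C := by
  obtain ⟨N, B, hN0, hpN, hB, h⟩ :=
    p_CMP p A O F W (φ (Classical.arbitrary J)) 2 a M two_pos hO hM
  obtain ⟨C, hC0, hW⟩ := weyl2 φ hN0
  have : Nontrivial O := (algebraMap O ℂ).domain_nontrivial
  refine ⟨B * (N * Nat.card (GL (Fin 2) (ResidueField A)) * C),
    fun U V _ _ _ _ _ _ _ _ σ L m D ⟨h1, h2⟩ ⟨⟨l, h3, h4⟩, h5⟩ hD h6 h7 => ?_⟩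
  have hl : Level (extend F (σ.tprod L)) := by
    obtain ⟨m₁, a₁⟩ := h1
    obtain ⟨m₂, a₂⟩ := h5
    refine ⟨m₁ + m₂, fun g hg => ?_⟩
    have e1 := a₁ g fun i j => Ideal.pow_le_pow_right (Nat.le_add_right _ _) (hg i j)
    have e2 := a₂ g fun i j => Ideal.pow_le_pow_right (Nat.le_add_left _ _) (hg i j)
    change (TensorProduct.map (σ g) (L g)).baseChange F = 1
    rw [e1]
    ext u v
    have := congrArg (fun f : Module.End F (F ⊗[O] V) =>
      (TensorProduct.mk O U V u).baseChange F (f (1 ⊗ₜ v))) e2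
    simpa [extend] using this
  have := h (U ⊗[O] V) (σ.tprod L) m (N * Nat.card (GL (Fin 2) (ResidueField A)) * C) hl h6 h7
      (by positivity) fun t ht hs => by
    have e1 := smooth2 p hN0 hpN h2 (h1.imp fun m a g hg => by
      change (σ g).baseChange ℂ = 1
      rw [a g hg, LinearMap.baseChange_one]) ht hs
    change ‖LinearMap.trace ℂ _ ((σ t).baseChange ℂ)‖ ≤ _ at e1
    rw [LinearMap.trace_baseChange] at e1
    rw [Representation.tprod_apply, LinearMap.trace_tensorProduct', map_mul, norm_mul]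
    exact mul_le_mul e1 (hW V l L h3 h4 t ht hs) (norm_nonneg _) (by positivity)
  rw [hD, dens, mul_assoc, mul_div_assoc', mul_comm (M : ℝ), ← finrank_tensorProduct]
  exact this

end Pool.Agent.P.MP_22cf7a_nt.BoundedRemainderKept
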