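import Pool.Agent.P.MP_7cb106_nt.As.Idem
import Pool.Agent.P.MP_7cb106_nt.As.Func

/-! Character values at elements with commutative centralisers. -/

set_option autoImplicit false

namespace Pool.Agent.P.MP_22cf7a_nt

open Finset Module Pool.Agent.P.MP_7cb106_nt.As
open LinearMap (trace)
open scoped Classical ComplexConjugate

variable {V : Type} [AddCommGroup V] [Module ℂ V] [FiniteDimensional ℂ V]

lemma rts {f : Module.End ℂ V} {N : ℕ} (h : f ^ (N + 1) = f) :
    ∀ r ∈ f.charpoly.roots, r = 0 ∨ r ^ N = 1 := fun r hr => by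
  obtain ⟨v, hv⟩ := ((Module.End.hasEigenvalue_iff_isRoot_charpoly f r).2
    (Polynomial.isRoot_of_mem_roots hr)).exists_hasEigenvector
  have e1 := hv.pow_apply (N + 1)
  rw [h, hv.apply_eq_smul] at e1
  have e2 : r = r ^ (N + 1) := smul_left_injective ℂ hv.2 e1
  exact or_iff_not_imp_left.2 fun h0 => mul_right_cancel₀ h0 (by rw [← pow_succ, ← e2, one_mul])

lemma int2 {N : ℕ} (S T : Multiset ℂ) (hS : ∀ r ∈ S, r = 0 ∨ r ^ N = 1)
    (hT : ∀ r ∈ T, r = 0 ∨ r ^ N = 1) : ∃ z : ℕ,
      ∑ k ∈ range N, (S.map (· ^ (k + 1))).sum * (T.map (· ^ (k + 1))).sum = z := by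
  induction S using Multiset.induction_on with
  | empty => exact ⟨0, by simp⟩
  | cons r S ih =>
    obtain ⟨z, hz⟩ := ih fun r hr => hS r (Multiset.mem_cons_of_mem hr)
    have hr := hS r (Multiset.mem_cons_self _ _)
    suffices ∃ w : ℕ, ∑ k ∈ range N, r ^ (k + 1) * (T.map (· ^ (k + 1))).sum = w by
      obtain ⟨w, hw⟩ := this
      exact ⟨w + z, by simp only [Multiset.map_cons, Multiset.sum_cons, add_mul, sum_add_distrib,
        hz, hw, Nat.cast_add]⟩
    clear hz ih
    induction T using Multiset.induction_on with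
    | empty => exact ⟨0, by simp⟩
    | cons t T ih =>
      obtain ⟨w, hw⟩ := ih fun r hr => hT r (Multiset.mem_cons_of_mem hr)
      suffices ∃ y : ℕ, ∑ k ∈ range N, (r * t) ^ (k + 1) = y by
        obtain ⟨y, hy⟩ := this
        exact ⟨y + w, by simp only [Multiset.map_cons, Multiset.sum_cons, mul_add, sum_add_distrib,
          ← mul_pow, hy, hw, Nat.cast_add]⟩
      by_cases h0 : r * t = 0
      · exact ⟨0, by simp [h0]⟩
      have h1 : (r * t) ^ N = 1 := by
        rw [mul_pow, hr.resolve_left (left_ne_zero_of_mul h0),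
          (hT t (Multiset.mem_cons_self _ _)).resolve_left (right_ne_zero_of_mul h0), one_mul]
      simp only [pow_succ, ← sum_mul, geo h1]
      split_ifs with e
      · exact ⟨N, by rw [e, mul_one]⟩
      · exact ⟨0, by simp⟩

lemma int1 {f : Module.End ℂ V} {N : ℕ} (h : f ^ (N + 1) = f) :
    ∃ z : ℕ, ∑ k ∈ range N, ‖trace ℂ V (f ^ (k + 1))‖ ^ 2 = z := by
  obtain ⟨z, hz⟩ := int2 _ (f.charpoly.roots.map conj) (rts h) fun r hr => by
    obtain ⟨r, hr', rfl⟩ := Multiset.mem_map.1 hr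
    exact (rts h r hr').imp (fun e => by simp [e]) fun e => by rw [← map_pow, e, map_one]
  refine ⟨z, Complex.ofReal_injective ?_⟩
  rw [Complex.ofReal_natCast, ← hz, Complex.ofReal_sum]
  refine sum_congr rfl fun k _ => ?_
  rw [Complex.ofReal_pow, ← Complex.mul_conj', Old.all_POW, map_multiset_sum, Multiset.map_map,
    Multiset.map_map]
  simp

variable {G : Type} [Group G] [Fintype G] {σ : Representation ℂ G V}

lemma tr_inv (g : G) : trace ℂ V (σ g⁻¹) = conj (trace ℂ V (σ g)) := by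
  obtain ⟨n, hn⟩ : ∃ n, Fintype.card G = n + 1 := ⟨_, (Nat.succ_pred Fintype.card_ne_zero).symm⟩
  have h1 : g ^ (n + 1) = 1 := hn ▸ pow_card_eq_one
  have h2 : g⁻¹ = g ^ (n + 1 + n) := by
    rw [pow_add, h1, one_mul, inv_eq_iff_mul_eq_one, ← pow_succ', h1]
  have h3 := Old.all_POW ℂ V (σ g) 1
  rw [pow_one] at h3
  rw [h2, map_pow, Old.all_POW, h3, map_multiset_sum, Multiset.map_map]
  refine congrArg _ (Multiset.map_congr rfl fun r hr => ?_)
  rcases rts (N := n + 1) (by rw [← map_pow, pow_succ, h1, one_mul]) r hr with e | e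
  · simp [e]
  · rw [pow_add, e, one_mul, Function.comp_apply, pow_one,
      ← Complex.inv_eq_conj (Complex.norm_eq_one_of_pow_eq_one e n.succ_ne_zero)]
    exact eq_inv_of_mul_eq_one_left ((pow_succ r n).symm.trans e)

lemma row (hσ : σ.IsIrreducible) : ∑ g, ‖trace ℂ V (σ g)‖ ^ 2 = Fintype.card G := by
  have h0 : (Nat.card G : ℂ) ≠ 0 := Nat.cast_ne_zero.2 Nat.card_pos.ne'
  have := invertibleOfNonzero h0
  have h := Representation.char_orthonormal σ σ
  rw [if_pos ⟨Representation.Equiv.refl σ⟩, inv_mul_eq_one₀ h0] at h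
  refine Complex.ofReal_injective ?_
  rw [Complex.ofReal_natCast, ← Nat.card_eq_fintype_card, h, Complex.ofReal_sum]
  refine sum_congr rfl fun g _ => ?_
  rw [Complex.ofReal_pow, ← Complex.mul_conj', ← tr_inv]
  rfl

lemma pars {Q : Type} [AddCommGroup Q] [Fintype Q] (a : AddChar Q ℂ → ℂ) :
    ∑ x, ‖∑ θ : AddChar Q ℂ, θ x * a θ‖ ^ 2 = Fintype.card Q * ∑ θ, ‖a θ‖ ^ 2 := by
  refine Complex.ofReal_injective ?_
  push_cast
  simp only [← Complex.mul_conj', map_sum, map_mul, sum_mul_sum, ← AddChar.map_neg_eq_conj]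
  rw [sum_comm, mul_sum]
  refine sum_congr rfl fun θ _ => ?_
  have e : ∀ θ' : AddChar Q ℂ, ∑ x, θ x * a θ * (θ' (-x) * conj (a θ')) =
      (if θ - θ' = 0 then (Fintype.card Q : ℂ) else 0) * (a θ * conj (a θ')) := fun θ' => by
    rw [← AddChar.sum_eq_ite, sum_mul]
    exact sum_congr rfl fun x _ => by rw [AddChar.sub_apply, mul_mul_mul_comm]
  rw [sum_comm, sum_eq_single θ (fun θ' _ h => ?_) (by simp), e, if_pos (sub_self _)]
  rw [e, if_neg fun e => h (sub_eq_zero.1 e).symm, zero_mul]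

/-- the centraliser of `t` is commutative -/
def Ab {G : Type} [Group G] (t : G) : Prop := ∀ x y, Commute x t → Commute y t → Commute x y

lemma sect (hσ : σ.IsIrreducible) {s t : G} (hst : Commute s t) (ht : Ab t) {e : ℕ}
    (he : t ^ e = t) (U : Subgroup (Subgroup.centralizer {s})) (hU : ∀ u ∈ U, u ^ e = 1)
    (hc : ∀ u : U, Commute t u.1.1) :
    ∑ u : U, ‖trace ℂ V (σ (t * u.1.1))‖ ^ 2 ≤ Fintype.card (Subgroup.centralizer {s}) := by
  let F : G → ℝ := fun g => ‖trace ℂ V (σ g)‖ ^ 2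
  let Φ : G × U → G := fun p => p.1 * (t * p.2.1.1) * p.1⁻¹
  have h1 : ∑ p, F (Φ p) = Fintype.card G * ∑ u : U, F (t * u.1.1) := by
    rw [Fintype.sum_prod_type, ← card_univ, ← nsmul_eq_mul, ← sum_const]
    exact sum_congr rfl fun h _ => sum_congr rfl fun u _ => congrArg (‖·‖ ^ 2) (σ.char_conj _ h)
  have h2 : ∀ u : U, (t * u.1.1) ^ e = t := fun u => by
    rw [(hc u).mul_pow, he, ← Subgroup.coe_pow, hU _ u.2, Subgroup.coe_one, mul_one]
  have h3 : ∀ g, #{p | Φ p = g} ≤ Fintype.card (Subgroup.centralizer {s}) := fun g => by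
    rcases eq_empty_or_nonempty {p | Φ p = g} with h | ⟨q, hq⟩
    · simp [h]
    rw [Fintype.card_subtype]
    refine card_le_card_of_injOn (fun p => q.1⁻¹ * p.1) (fun p hp => ?_) fun p hp p' hp' e => ?_
    · have := congrArg (· ^ e) ((mem_filter.1 hp).2.trans (mem_filter.1 hq).2.symm)
      simp only [Φ, conj_pow, h2] at this
      refine mem_filter.2 ⟨mem_univ _, Subgroup.mem_centralizer_singleton_iff.2 (ht _ _ ?_ hst)⟩
      calc q.1⁻¹ * p.1 * t = q.1⁻¹ * (p.1 * t * p.1⁻¹) * p.1 := by group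
        _ = t * (q.1⁻¹ * p.1) := by rw [this]; group
    · have e1 : p.1 = p'.1 := mul_left_cancel e
      have := (mem_filter.1 hp).2.trans (mem_filter.1 hp').2.symm
      simp only [Φ, e1, mul_left_inj, mul_right_inj] at this
      exact Prod.ext e1 (Subtype.ext (Subtype.ext this))
  refine le_of_mul_le_mul_left (a := (Fintype.card G : ℝ)) ?_ (by exact_mod_cast Fintype.card_pos)
  rw [← h1, ← sum_fiberwise univ Φ, ← row hσ, sum_mul]
  refine sum_le_sum fun g _ => ?_
  rw [sum_congr rfl (g := fun _ => F g) fun p hp => by rw [(mem_filter.1 hp).2], sum_const,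
    nsmul_eq_mul, mul_comm]
  exact mul_le_mul_of_nonneg_left (Nat.cast_le.2 (h3 g)) (by positivity)

theorem grp (hσ : σ.IsIrreducible) (K : Subgroup G) {s : G} {N e : ℕ} (hN : 0 < N)
    (hs : s ^ N = 1) (he : e ≡ 1 [MOD N]) (hK : ∀ u ∈ K, u ^ e = 1) (h1 : Ab s)
    (h : ∀ k, ¬ Ab (s ^ k) → ∀ g, Commute g (s ^ k)) : ‖trace ℂ V (σ s)‖ ≤ N * K.index := by
  let U := K.subgroupOf (Subgroup.centralizer {s})
  have hU : ∀ u : U, Commute u.1.1 s := fun u => Subgroup.mem_centralizer_singleton_iff.1 u.1.2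
  let : CommGroup U :=
    { (inferInstance : Group U) with
      mul_comm := fun x y => Subtype.ext (Subtype.ext (h1 _ _ (hU x) (hU y))) }
  let α : Additive U → Module.End ℂ V := fun x => σ x.toMul.1.1
  have hα : Act α := ⟨map_one σ, fun x y => map_mul σ _ _⟩
  let a : ℕ → AddChar (Additive U) ℂ → ℂ := fun k θ => trace ℂ V (σ (s ^ k) * pr α θ)
  have a1 : ∀ k x, trace ℂ V (σ (s ^ k) * α x) = ∑ θ : AddChar (Additive U) ℂ, θ x * a k θ :=
    fun k x => by
      rw [← mul_one (α x), ← hα.sum, mul_sum, mul_sum, map_sum]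
      simp only [hα.mul, mul_smul_comm, map_smul, smul_eq_mul, a]
  have a2 : ∀ k, Ab (s ^ k) → ∑ θ, ‖a k θ‖ ^ 2 ≤ K.index := fun k hk => by
    have b1 := sect hσ (Commute.self_pow s k) hk (e := e) (by
      rw [← pow_mul, mul_comm, pow_mul, pow_eq_pow_of_modEq he hs, pow_one]) U
      (fun u hu => Subtype.ext (hK _ hu)) fun u => ((hU u).pow_right k).symm
    have b2 := pars (a k)
    simp only [← a1, α, ← map_mul] at b2
    have b3 : Fintype.card (Subgroup.centralizer {s}) ≤ Fintype.card (Additive U) * K.index := by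
      rw [← Nat.card_eq_fintype_card, ← U.card_mul_index, ← Nat.card_eq_fintype_card]
      refine Nat.mul_le_mul_left _ ?_
      rw [← K.relIndex_top_right]
      exact Subgroup.relIndex_le_of_le_right le_top
        (K.relIndex_top_right ▸ K.index_ne_zero_of_finite)
    refine le_of_mul_le_mul_left (a := (Fintype.card (Additive U) : ℝ)) ?_
      (by exact_mod_cast Fintype.card_pos)
    rw [← b2, ← Nat.cast_mul]
    exact (Fintype.sum_equiv Additive.toMul _ _ fun _ => rfl).trans_le (b1.trans (Nat.cast_le.2 b3))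
  have a3 : ∀ θ, ‖a 1 θ‖ ≤ ∑ k ∈ range N with Ab (s ^ (k + 1)), ‖a (k + 1) θ‖ ^ 2 := fun θ => by
    have c1 : Commute (σ s) (pr α θ) := pr_conj (c := AddEquiv.refl _) (fun x => by
      simp only [α, ← map_mul, AddEquiv.refl_apply, (hU _).eq]) fun _ => rfl
    have c2 : ∀ k, (σ s * pr α θ) ^ (k + 1) = σ (s ^ (k + 1)) * pr α θ := fun k => by
      rw [c1.mul_pow, map_pow, IsIdempotentElem.pow_succ_eq k (hα.idem θ)]
    obtain ⟨z, hz⟩ := int1 (f := σ s * pr α θ) (N := N) (by rw [c2, pow_succ, hs, one_mul])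
    simp only [c2] at hz
    obtain ⟨w, hw⟩ : ∃ w : ℕ, ∀ k, ¬ Ab (s ^ k) → ‖a k θ‖ ^ 2 = w := by
      refine ⟨finrank ℂ (LinearMap.range (pr α θ)) ^ 2, fun k hk => ?_⟩
      obtain ⟨c, hc⟩ :=
        (Representation.IsIrreducible.algebraMap_intertwiningMap_bijective_of_isAlgClosed
          (ρ := σ)).2 ⟨σ (s ^ k), fun g => by
            change σ _ * σ g = σ g * σ _
            rw [← map_mul, ← map_mul, (h k hk g).eq]⟩
      have d1 : σ (s ^ k) = c • 1 := (congrArg Representation.IntertwiningMap.toLinearMap hc).symm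
      have d2 : c ^ N • pr α θ = (1 : ℂ) • pr α θ := by
        have := congrArg (· ^ N * pr α θ) d1
        simp only [← map_pow, pow_right_comm s k, hs, one_pow, map_one, smul_pow,
          smul_mul_assoc, one_mul] at this
        rw [← this, one_smul]
      simp only [a, d1, smul_mul_assoc, one_mul, map_smul, norm_smul,
        (LinearMap.IsIdempotentElem.isProj_range _ (hα.idem θ)).trace, Complex.norm_natCast]
      by_cases h0 : pr α θ = 0
      · rw [h0, LinearMap.range_zero]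
        simp
      · rw [Complex.norm_eq_one_of_pow_eq_one (smul_left_injective ℂ h0 d2) hN.ne', one_mul,
          Nat.cast_pow]
    rw [← sum_filter_add_sum_filter_not _ fun k => Ab (s ^ (k + 1)),
      sum_congr rfl (s₁ := filter (fun k => ¬ Ab (s ^ (k + 1))) _) fun k hk => hw _ (mem_filter.1 hk).2,
      sum_const, nsmul_eq_mul, ← eq_sub_iff_add_eq] at hz
    have d3 := single_le_sum (f := fun k => ‖a (k + 1) θ‖ ^ 2) (fun _ _ => by positivity)
      (mem_filter.2 ⟨mem_range.2 hN, by rwa [zero_add, pow_one]⟩ :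
        0 ∈ (range N).filter fun k => Ab (s ^ (k + 1)))
    change _ = _ at hz
    rw [show ∑ k ∈ range N with Ab (s ^ (k + 1)), ‖a (k + 1) θ‖ ^ 2 = _ from hz] at d3 ⊢
    generalize #_ = n at d3 ⊢
    have d4 : (0 : ℤ) ≤ z - n * w := by exact_mod_cast (sq_nonneg _).trans d3
    refine abs_le_of_sq_le_sq' (d3.trans ?_) (by exact_mod_cast d4) |>.2
    exact_mod_cast Int.le_self_sq (z - n * w : ℤ)
  have a4 := a1 1 0
  rw [hα.zero, mul_one, pow_one] at a4
  rw [a4]
  simp only [AddChar.map_zero_eq_one, one_mul]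
  refine (norm_sum_le _ _).trans ((sum_le_sum fun θ _ => a3 θ).trans ?_)
  rw [sum_comm]
  refine (sum_le_card_nsmul _ _ _ fun k hk => a2 _ (mem_filter.1 hk).2).trans ?_
  rw [nsmul_eq_mul]
  gcongr
  exact (card_filter_le _ _).trans_eq (card_range N)

end Pool.Agent.P.MP_22cf7a_nt
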