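import Pool.Agent.P.MP_22cf7a_nt.Grp
import Pool.Agent.P.MP_7cb106_nt.As.Wey
import Pool.Agent.P.MP_7cb106_nt.As.Cmp

/-! Bounded character values for two by two matrices. -/

set_option autoImplicit false

namespace Pool.Agent.P.MP_22cf7a_nt

open Finset Module Polynomial IsLocalRing Pool.Agent.P.MP_7cb106_nt.As
open LinearMap (trace)
open Matrix.GeneralLinearGroup (scalar)

lemma comm2 {R : Type} [CommRing R] {s X Y : Matrix (Fin 2) (Fin 2) R}
    (h : IsUnit (s 0 1) ∨ IsUnit (s 1 0) ∨ IsUnit (s 0 0 - s 1 1)) (hX : X * s = s * X)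
    (hY : Y * s = s * Y) : X * Y = Y * X := by
  have key : ∀ Z : Matrix (Fin 2) (Fin 2) R, Z * s = s * Z →
      ∃ c, Z 0 1 = c * s 0 1 ∧ Z 1 0 = c * s 1 0 ∧ Z 0 0 = Z 1 1 + c * (s 0 0 - s 1 1) := by
    intro Z hZ
    have e0 := congrFun (congrFun hZ 0) 0
    have e1 := congrFun (congrFun hZ 0) 1
    have e2 := congrFun (congrFun hZ 1) 0
    simp only [Matrix.mul_apply, Fin.sum_univ_two] at e0 e1 e2
    rcases h with h | h | h <;> obtain ⟨v, hv⟩ := h.exists_right_inv
    · exact ⟨Z 0 1 * v, by linear_combination (-Z 0 1) * hv,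
        by linear_combination (-Z 1 0) * hv - v * e0,
        by linear_combination (Z 1 1 - Z 0 0) * hv + v * e1⟩
    · exact ⟨Z 1 0 * v, by linear_combination (-Z 0 1) * hv + v * e0,
        by linear_combination (-Z 1 0) * hv,
        by linear_combination (Z 1 1 - Z 0 0) * hv - v * e2⟩
    · exact ⟨(Z 0 0 - Z 1 1) * v, by linear_combination (-Z 0 1) * hv - v * e1,
        by linear_combination (-Z 1 0) * hv + v * e2,
        by linear_combination (Z 1 1 - Z 0 0) * hv⟩
  obtain ⟨c, a1, a2, a3⟩ := key X hX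
  obtain ⟨d, b1, b2, b3⟩ := key Y hY
  ext i j
  fin_cases i <;> fin_cases j <;>
    simp only [Matrix.mul_apply, Fin.sum_univ_two, Fin.zero_eta, Fin.mk_one, a1, a2, a3, b1, b2,
      b3] <;> ring

lemma desc {H G V : Type} [Group H] [Group G] [AddCommGroup V] [Module ℂ V] {f : H →* G}
    (hf : Function.Surjective f) {σ : Representation ℂ H V} (hσ : σ.IsIrreducible)
    (hk : ∀ x, f x = 1 → σ x = 1) :
    ∃ σ' : Representation ℂ G V, σ'.IsIrreducible ∧ σ = σ'.comp f := by
  obtain ⟨σ', rfl⟩ : ∃ σ' : Representation ℂ G V, σ = σ'.comp f :=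
    ⟨(Units.coeHom _).comp (f.liftOfSurjective hf ⟨σ.toHomUnits, fun x hx =>
      Units.ext (hk x hx)⟩), MonoidHom.ext fun x => by simp⟩
  let e : Subrepresentation σ' ≃o Subrepresentation (σ'.comp f) :=
    { toFun := fun X => ⟨X.toSubmodule, fun g v hv => X.apply_mem_toSubmodule _ hv⟩
      invFun := fun X => ⟨X.toSubmodule, fun g v hv => by
        obtain ⟨g, rfl⟩ := hf g
        exact X.apply_mem_toSubmodule g hv⟩
      left_inv := fun _ => rfl
      right_inv := fun _ => rfl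
      map_rel_iff' := Iff.rfl }
  exact ⟨σ', e.isSimpleOrder, rfl⟩

theorem smooth2 (p : ℕ) [Fact p.Prime] {A V : Type} [CommRing A] [IsDomain A]
    [IsDiscreteValuationRing A] [IsAdicComplete (maximalIdeal A) A] [Finite (ResidueField A)]
    [CharP (ResidueField A) p] [AddCommGroup V] [Module ℂ V] [FiniteDimensional ℂ V] {N : ℕ}
    (hN0 : 0 < N) (hN : ¬ p ∣ N) {σ : Representation ℂ (GL (Fin 2) A) V} (hσ : σ.IsIrreducible)
    (hl : Level σ) {t : GL (Fin 2) A} (ht : t ^ N = 1) (hs : ¬ Scal t) :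
    ‖trace ℂ V (σ t)‖ ≤ N * Nat.card (GL (Fin 2) (ResidueField A)) := by
  obtain ⟨m, hm⟩ := hl
  have pp : p.Prime := Fact.out
  have hI : maximalIdeal A ^ (m + 1) ≤ maximalIdeal A := Ideal.pow_le_self m.succ_ne_zero
  have : Finite (A ⧸ maximalIdeal A) := ‹Finite (ResidueField A)›
  have : Finite (A ⧸ maximalIdeal A ^ (m + 1)) :=
    Ideal.finite_quotient_pow (IsNoetherian.noetherian _) _
  have : Nontrivial (A ⧸ maximalIdeal A ^ (m + 1)) := Ideal.Quotient.nontrivial_iff.2 fun e =>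
    (maximalIdeal.isMaximal A).ne_top (top_le_iff.1 (e ▸ hI))
  let φ := Ideal.Quotient.mk (maximalIdeal A ^ (m + 1))
  have hφ : Function.Surjective φ := Ideal.Quotient.mk_surjective
  have : IsLocalHom φ := IsLocalHom.of_surjective φ hφ
  have hf : Function.Surjective (rd A 2 (m + 1)) := fun g => by
    let B : Matrix (Fin 2) (Fin 2) A := Matrix.of fun a b => Function.surjInv hφ (g.val a b)
    have h1 : φ.mapMatrix B = g.val := by
      ext a b
      simp [B, Function.surjInv_eq hφ]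
    have h2 : IsUnit B := (Matrix.isUnit_iff_isUnit_det _).2 <| (isUnit_map_iff φ _).1 <| by
      rw [RingHom.map_det, h1]
      exact (Matrix.isUnit_iff_isUnit_det _).1 g.isUnit
    exact ⟨h2.unit, Units.ext h1⟩
  obtain ⟨σ, hσ', rfl⟩ := desc hf hσ fun x hx =>
    hm x (rd_one.1 ((rd_le m.le_succ (hx.trans (map_one _).symm)).trans (map_one _)))
  have ab : ∀ s : GL (Fin 2) A, ¬ Scal s → Ab (rd A 2 (m + 1) s) := fun s h x y hx hy => by
    refine Units.ext (comm2 ?_ (congrArg Units.val hx) (congrArg Units.val hy))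
    by_contra! hc
    refine h (scal_of (fun i j e u => ?_) fun i j u => ?_)
    · fin_cases i <;> fin_cases j
      exacts [e rfl, hc.1 (u.map φ), hc.2.1 (u.map φ), e rfl]
    · have := u.map φ
      rw [map_sub] at this
      fin_cases i <;> fin_cases j
      · simp at u
      · exact hc.2.2 this
      · exact hc.2.2 ((neg_sub _ _).subst this.neg)
      · simp at u
  obtain ⟨τ, hτ⟩ := tei (A := A)
  have := Fintype.ofFinite (GL (Fin 2) (A ⧸ maximalIdeal A ^ (m + 1)))
  refine (grp hσ' ((red A 2).ker.map (rd A 2 (m + 1))) (e := (p ^ N.totient) ^ m) hN0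
    (by rw [← map_pow, ht, map_one]) ?_ ?_ (ab t hs) fun k hk g => ?_).trans ?_
  · simpa using (Nat.ModEq.pow_totient ((Nat.Prime.coprime_iff_not_dvd pp).2 hN)).pow m
  · rintro _ ⟨v, hv, rfl⟩
    rw [← map_pow]
    exact up ((CharP.cast_eq_zero_iff _ p _).2
      (dvd_pow_self p (Nat.totient_pos.2 hN0).ne')) hv m
  · obtain ⟨g, rfl⟩ := hf g
    rw [← map_pow] at hk ⊢
    obtain ⟨z, h⟩ := not_not.1 (mt (ab _) hk)
    have hs : (t ^ k) ^ N = 1 := by rw [pow_right_comm, ht, one_pow]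
    have h1 : z ^ N = 1 := scalar_inj two_pos (by
      rw [map_pow, ← h, ← map_pow, hs, map_one, map_one])
    obtain ⟨u, hu⟩ := isConj_iff.1 (conj_of (fun h => hN ((CharP.cast_eq_zero_iff _ p _).1 h)) hs
      (s := scalar (Fin 2) (τ z)) (by rw [← map_pow, ← map_pow, h1, map_one, map_one])
      (by rw [h, Matrix.GeneralLinearGroup.map_scalar, hτ]))
    rw [← hu, ← Matrix.GeneralLinearGroup.scalar_commute, mul_inv_cancel_right]
    exact Commute.map (Matrix.GeneralLinearGroup.scalar_commute _ _).symm _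
  · gcongr
    refine (Nat.le_of_dvd (Nat.pos_of_ne_zero ?_) (Subgroup.index_map_dvd _ hf)).trans ?_ <;>
      rw [Subgroup.index_ker]
    exacts [Nat.card_pos.ne', Subgroup.card_le_card_group _]

lemma schur2 (l : Fin 2 → ℤ) (hl : Antitone l) (x : Fin 2 → ℂ) (hx : ∀ i, ‖x i‖ = 1) :
    ‖x 0 - x 1‖ * ‖schur 2 l x‖ ≤ 2 := by
  have x0 : ∀ i, x i ≠ 0 := fun i e => by simpa [e] using hx i
  have e1 : (x 0 - x 1) * schur 2 l x = x 0 ^ (l 0 + 1) * x 1 ^ (l 0 + l 1 + 1 - (l 0 + 1)) -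
      x 0 ^ l 1 * x 1 ^ (l 0 + l 1 + 1 - l 1) := by
    rw [schur_succ, sum_two, mul_sum]
    refine Eq.trans (sum_congr rfl fun u _ => ?_)
      (tele (fun u => x 0 ^ u * x 1 ^ (l 0 + l 1 + 1 - u)) (hl (by simp)))
    have e : l 0 + l 1 + 1 - u = l 0 + l 1 - u + 1 := by ring
    have e' : l 0 + l 1 + 1 - (u + 1) = l 0 + l 1 - u := by ring
    simp only [e, e', zpow_add_one₀ (x0 _)]
    simp [schur]
    ring
  rw [← norm_mul, e1]
  refine (norm_sub_le _ _).trans ?_
  simp only [norm_mul, norm_zpow, hx, one_zpow]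
  linarith

theorem weyl2 {A O J : Type} [CommRing A] [IsLocalRing A] [CommRing O] [Algebra O ℂ] [Fintype J]
    (φ : J → A →+* O) {N : ℕ} (hN : 0 < N) : ∃ C : ℝ, 0 ≤ C ∧
    ∀ (V : Type) [AddCommGroup V] [Module O V] (l : J → Fin 2 → ℤ)
      (ρ : Representation O (GL (Fin 2) A) V), (∀ j, Antitone (l j)) →
      Weyl φ l ρ → ∀ t : GL (Fin 2) A, t ^ N = 1 → ¬ Scal t →
        ‖algebraMap O ℂ (trace O V (ρ t))‖ ≤ C := by
  obtain ⟨K, K0, hK⟩ := gap N hN
  refine ⟨(K * 2) ^ Fintype.card J, by positivity, fun V _ _ l ρ hl hw t ht hs => ?_⟩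
  have hx := fun j => eig (n := 0) (M := t.val.map fun a => algebraMap O ℂ (φ j a)) hN (by
    have := congrArg (fun g : GL _ A => ((algebraMap O ℂ).comp (φ j)).mapMatrix g.val) ht
    simp only [Units.val_pow_eq_pow_val, map_pow, Units.val_one, map_one] at this
    exact this) fun c hc => hs (scal_of (fun i k e u => ?_) fun i k u => ?_)
  rotate_left
  · have := congrFun (congrFun hc i) k
    rw [Matrix.scalar_apply, Matrix.diagonal_apply_ne _ e] at this
    exact ((u.map (φ j)).map (algebraMap O ℂ)).ne_zero this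
  · have h1 := congrFun (congrFun hc i) i
    have h2 := congrFun (congrFun hc k) k
    rw [Matrix.scalar_apply, Matrix.diagonal_apply_eq, Matrix.map_apply] at h1 h2
    exact ((u.map (φ j)).map (algebraMap O ℂ)).ne_zero (by rw [map_sub, map_sub, h1, h2, sub_self])
  choose x x1 x2 x3 using hx
  rw [hw t x x1, norm_prod, ← card_univ, ← prod_const]
  refine prod_le_prod (fun _ _ => norm_nonneg _) fun j _ => ?_
  have h2 := mul_le_mul_of_nonneg_right (hK _ _ (x2 j 0) (x2 j 1) (x3 j))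
    (norm_nonneg (schur 2 (l j) (x j)))
  rw [one_mul, mul_assoc] at h2
  exact h2.trans (mul_le_mul_of_nonneg_left (schur2 _ (hl j) _ fun i =>
    Complex.norm_eq_one_of_pow_eq_one (x2 j i) hN.ne') K0)

end Pool.Agent.P.MP_22cf7a_nt
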